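import Pool.Agent.K1H35.SH.Stm

/-! The union bound (helper68, for helper35, project SH). -/

set_option autoImplicit false

open Finset

namespace Pool.Agent.K1H68.SH

open Pool.Agent.K1H35.SH

section
open scoped Classical

variable {n d : ℕ}

theorem cnt_eq (P : SimpleGraph (Fin n) → Prop) [DecidablePred P] :
    cnt n d P = ((reg n d).filter P).card := by
  unfold cnt
  congr!

theorem cnt_zero {P : SimpleGraph (Fin n) → Prop} (h : ∀ G, ¬ P G) : cnt n d P = 0 := by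
  rw [cnt_eq, card_eq_zero, filter_eq_empty_iff]
  exact fun G _ => h G

theorem cnt_mono {P Q : SimpleGraph (Fin n) → Prop} (h : ∀ G ∈ reg n d, P G → Q G) :
    cnt n d P ≤ cnt n d Q := by
  unfold cnt
  apply card_le_card
  intro G hG
  rw [mem_filter] at hG ⊢
  exact ⟨hG.1, h G hG.1 hG.2⟩

theorem cnt_le_reg (P : SimpleGraph (Fin n) → Prop) : cnt n d P ≤ (reg n d).card := by
  unfold cnt
  exact card_le_card (filter_subset _ _)

theorem cnt_split (P Q : SimpleGraph (Fin n) → Prop) :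
    cnt n d P = cnt n d (fun G => Q G ∧ P G) + cnt n d (fun G => ¬ Q G ∧ P G) := by
  rw [cnt_eq, cnt_eq, cnt_eq]
  have h1 : ((reg n d).filter (fun G => Q G ∧ P G)) = ((reg n d).filter P).filter Q := by
    ext G
    simp only [mem_filter]
    tauto
  have h2 : ((reg n d).filter (fun G => ¬ Q G ∧ P G)) =
      ((reg n d).filter P).filter (fun G => ¬ Q G) := by
    ext G
    simp only [mem_filter]
    tauto
  rw [h1, h2, card_filter_add_card_filter_not]

theorem cnt_or {P A B : SimpleGraph (Fin n) → Prop} (h : ∀ G ∈ reg n d, P G → A G ∨ B G) :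
    cnt n d P ≤ cnt n d A + cnt n d B := by
  unfold cnt
  refine le_trans (card_le_card ?_) (card_union_le _ _)
  intro G hG
  rw [mem_filter] at hG
  rw [mem_union, mem_filter, mem_filter]
  rcases h G hG.1 hG.2 with h1 | h1
  · exact Or.inl ⟨hG.1, h1⟩
  · exact Or.inr ⟨hG.1, h1⟩

theorem cnt_le_sum {ι : Type} (s : Finset ι) (Q : ι → SimpleGraph (Fin n) → Prop)
    {P : SimpleGraph (Fin n) → Prop} (h : ∀ G ∈ reg n d, P G → ∃ i ∈ s, Q i G) :
    cnt n d P ≤ ∑ i ∈ s, cnt n d (Q i) := by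
  unfold cnt
  refine le_trans (card_le_card ?_) (card_biUnion_le (s := s)
    (t := fun i => (reg n d).filter (Q i)))
  intro G hG
  rw [mem_filter] at hG
  obtain ⟨i, hi, hQ⟩ := h G hG.1 hG.2
  rw [mem_biUnion]
  exact ⟨i, hi, mem_filter.2 ⟨hG.1, hQ⟩⟩

/-- disjoint events -/
theorem sum_cnt_le (X : SimpleGraph (Fin n) → ℕ) (P : SimpleGraph (Fin n) → Prop) (J : ℕ) :
    ∑ j ∈ range (J + 1), cnt n d (fun G => P G ∧ X G = j) ≤ cnt n d P := by
  rw [cnt_eq P]
  simp only [cnt_eq]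
  rw [← card_biUnion (s := range (J + 1))
    (t := fun j => (reg n d).filter (fun G => P G ∧ X G = j))]
  · apply card_le_card
    intro G hG
    rw [mem_biUnion] at hG
    obtain ⟨j, -, hj⟩ := hG
    rw [mem_filter] at hj ⊢
    exact ⟨hj.1, hj.2.1⟩
  · intro i _ j _ hij
    rw [Function.onFun, disjoint_left]
    intro G h1 h2
    rw [mem_filter] at h1 h2
    exact hij (h1.2.2.symm.trans h2.2.2)

/-- the chain for a statistic `X` -/
theorem chain (hCH : S_CH) (X : SimpleGraph (Fin n) → ℕ) (Go : SimpleGraph (Fin n) → Prop)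
    (J : ℕ) (hst : ∀ j < J, 2 * cnt n d (fun G => Go G ∧ X G = j) ≤
      cnt n d (fun G => X G = j + 1)) (j : ℕ) (hj : j ≤ J) :
    2 ^ (J - j) * cnt n d (fun G => Go G ∧ X G = j) ≤
      (reg n d).card + 2 ^ (J - j) * cnt n d (fun G => ¬ Go G) := by
  refine hCH (fun j => cnt n d (fun G => Go G ∧ X G = j))
    (fun j => cnt n d (fun G => ¬ Go G ∧ X G = j)) J (reg n d).card
    (cnt n d (fun G => ¬ Go G)) (fun j => cnt_le_reg _) (sum_cnt_le X (fun G => ¬ Go G) J) ?_ j hj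
  intro i hi
  have h1 := hst i hi
  rw [cnt_split (fun G => X G = i + 1) Go] at h1
  exact h1

end

/-- the final arithmetic -/
theorem cnt_arith (n a g J K R b S1 S2 T : ℕ) (hn : 3 ≤ n) (ha : a ≤ n)
    (hT : T ≤ b + (S1 + S2)) (hb : b * 2 ^ g ≤ n ^ 3 * R)
    (h1 : 2 ^ K * S1 ≤ n ^ 3 * a * (R + 2 ^ K * b))
    (h2 : 2 ^ J * S2 ≤ n ^ (2 * a) * (R + 2 ^ J * b)) :
    T * 2 ^ (g + J + K) ≤ (2 ^ (J + K) * n ^ (2 * a + 8) + 2 ^ (g + J) * n ^ 4 +
        2 ^ (g + K) * n ^ (2 * a)) * R := by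
  have hn1 : 1 ≤ n := by omega
  have e1 : n ^ 3 * (1 + n ^ 3 * a + n ^ (2 * a)) ≤ n ^ (2 * a + 8) := by
    have a1 : n ^ 3 ≤ n ^ (2 * a + 7) := Nat.pow_le_pow_right hn1 (by omega)
    have a2 : n ^ 3 * (n ^ 3 * a) ≤ n ^ (2 * a + 7) := by
      calc n ^ 3 * (n ^ 3 * a) ≤ n ^ 3 * (n ^ 3 * n) := by gcongr
        _ = n ^ 7 := by ring
        _ ≤ _ := Nat.pow_le_pow_right hn1 (by omega)
    have a3 : n ^ 3 * n ^ (2 * a) ≤ n ^ (2 * a + 7) := by
      rw [← pow_add]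
      exact Nat.pow_le_pow_right hn1 (by omega)
    calc n ^ 3 * (1 + n ^ 3 * a + n ^ (2 * a)) = n ^ 3 + n ^ 3 * (n ^ 3 * a) +
          n ^ 3 * n ^ (2 * a) := by ring
      _ ≤ n ^ (2 * a + 7) + n ^ (2 * a + 7) + n ^ (2 * a + 7) := by gcongr
      _ = 3 * n ^ (2 * a + 7) := by ring
      _ ≤ n * n ^ (2 * a + 7) := by gcongr
      _ = n ^ (2 * a + 8) := by ring
  have e2 : n ^ 3 * a ≤ n ^ 4 := by
    calc n ^ 3 * a ≤ n ^ 3 * n := by gcongr
      _ = n ^ 4 := by ring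
  calc T * 2 ^ (g + J + K) ≤ (b + (S1 + S2)) * 2 ^ (g + J + K) := by gcongr
    _ = 2 ^ (J + K) * (b * 2 ^ g) + 2 ^ (g + J) * (2 ^ K * S1) + 2 ^ (g + K) * (2 ^ J * S2) := by
        simp only [pow_add]; ring
    _ ≤ 2 ^ (J + K) * (b * 2 ^ g) + 2 ^ (g + J) * (n ^ 3 * a * (R + 2 ^ K * b)) +
        2 ^ (g + K) * (n ^ (2 * a) * (R + 2 ^ J * b)) := by gcongr
    _ = 2 ^ (J + K) * (b * 2 ^ g) * (1 + n ^ 3 * a + n ^ (2 * a)) +
        2 ^ (g + J) * (n ^ 3 * a) * R + 2 ^ (g + K) * n ^ (2 * a) * R := by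
        simp only [pow_add]; ring
    _ ≤ 2 ^ (J + K) * (n ^ 3 * R) * (1 + n ^ 3 * a + n ^ (2 * a)) +
        2 ^ (g + J) * n ^ 4 * R + 2 ^ (g + K) * n ^ (2 * a) * R := by gcongr
    _ = 2 ^ (J + K) * (n ^ 3 * (1 + n ^ 3 * a + n ^ (2 * a))) * R +
        2 ^ (g + J) * n ^ 4 * R + 2 ^ (g + K) * n ^ (2 * a) * R := by ring
    _ ≤ 2 ^ (J + K) * n ^ (2 * a + 8) * R +
        2 ^ (g + J) * n ^ 4 * R + 2 ^ (g + K) * n ^ (2 * a) * R := by gcongr
    _ = _ := by ring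

end Pool.Agent.K1H68.SH

namespace Pool.Agent.K1H35.SH

open Pool.Agent.K1H68.SH

theorem t_CNT (hCH : S_CH) (hBAD : S_BAD) (hTWO : S_TWO) (hTHB : S_THB) (hREC : S_REC)
    (hUNI : S_UNI) : S_CNT := by
  classical
  intro n d a q J K hdn hd ha hq hJq hJ hK
  obtain ⟨b, hb⟩ : ∃ b, b = cnt n d (fun G => ¬ Good d G) := ⟨_, rfl⟩
  obtain ⟨R, hR⟩ : ∃ R, R = (reg n d).card := ⟨_, rfl⟩
  have hb1 := hBAD n d hdn (by omega)
  rw [← hb, ← hR] at hb1
  have han : a ≤ n := by omega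
  -- the chain for `TS`
  have c1 : ∀ u v w : Fin n, ∀ j < a, 2 ^ K * cnt n d (fun G => (u ≠ v ∧ u ≠ w ∧ v ≠ w) ∧
      Good d G ∧ (TS G u v w).card = j) ≤ R + 2 ^ K * b := by
    intro u v w j hj
    by_cases hu : u ≠ v ∧ u ≠ w ∧ v ≠ w
    · have h1 := chain (n := n) (d := d) hCH (fun G => (TS G u v w).card) (Good d) (K + a)
        (fun j hj => hTWO n d j u v w hdn hd hu.1 hu.2.1 hu.2.2 (by
          refine le_trans ?_ hK
          have : j + 1 ≤ K + a := hj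
          gcongr)) j (by omega)
      rw [← hb, ← hR] at h1
      have h2 : K + a - j = K + (a - j) := by omega
      rw [h2, pow_add] at h1
      have h3 : cnt n d (fun G => (u ≠ v ∧ u ≠ w ∧ v ≠ w) ∧
          Good d G ∧ (TS G u v w).card = j) ≤
          cnt n d (fun G => Good d G ∧ (TS G u v w).card = j) := cnt_mono fun G _ h => h.2
      refine (Nat.mul_le_mul_left _ h3).trans ?_
      have h4 : 1 ≤ 2 ^ (a - j) := Nat.one_le_two_pow
      have h5 : 0 < 2 ^ (a - j) := h4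
      refine Nat.le_of_mul_le_mul_left ?_ h5
      calc 2 ^ (a - j) * (2 ^ K * cnt n d (fun G => Good d G ∧ (TS G u v w).card = j))
          = 2 ^ K * 2 ^ (a - j) * cnt n d (fun G => Good d G ∧ (TS G u v w).card = j) := by ring
        _ ≤ R + 2 ^ K * 2 ^ (a - j) * b := h1
        _ ≤ 2 ^ (a - j) * R + 2 ^ K * 2 ^ (a - j) * b := by
            have : R ≤ 2 ^ (a - j) * R := Nat.le_mul_of_pos_left _ h5
            omega
        _ = _ := by ring
    · have h3 : cnt n d (fun G => (u ≠ v ∧ u ≠ w ∧ v ≠ w) ∧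
          Good d G ∧ (TS G u v w).card = j) = 0 := cnt_zero fun G h => hu h.1
      rw [h3]
      simp
  -- the chain for `dis`
  have c2 : ∀ α β : Fin a → Fin n, 2 ^ J * cnt n d (fun G => DisjPair α β ∧
      Good d G ∧ dis α β G = 0) ≤ R + 2 ^ J * b := by
    intro α β
    by_cases hu : DisjPair α β
    · have h1 := chain (n := n) (d := d) hCH (fun G => dis α β G) (Good d) J
        (fun j hj => hTHB n d a q j α β hu hdn (by omega) ha hq (by omega) (by
          refine le_trans ?_ hJ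
          have : j + 1 ≤ J := hj
          gcongr)) 0 (Nat.zero_le _)
      rw [← hb, ← hR, Nat.sub_zero] at h1
      refine le_trans (Nat.mul_le_mul_left _ (cnt_mono fun G _ h => h.2)) h1
    · have h3 : cnt n d (fun G => DisjPair α β ∧ Good d G ∧ dis α β G = 0) = 0 :=
        cnt_zero fun G h => hu h.1
      rw [h3]
      simp
  -- the union bound
  obtain ⟨S1, hS1⟩ : ∃ S1, S1 = ∑ i ∈ (univ : Finset (Fin n × Fin n × Fin n)) ×ˢ range a,
    cnt n d (fun G => (i.1.1 ≠ i.1.2.1 ∧ i.1.1 ≠ i.1.2.2 ∧ i.1.2.1 ≠ i.1.2.2) ∧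
      Good d G ∧ (TS G i.1.1 i.1.2.1 i.1.2.2).card = i.2) := ⟨_, rfl⟩
  obtain ⟨S2, hS2⟩ : ∃ S2, S2 = ∑ i ∈ (univ : Finset ((Fin a → Fin n) × (Fin a → Fin n))),
    cnt n d (fun G => DisjPair i.1 i.2 ∧ Good d G ∧ dis i.1 i.2 G = 0) := ⟨_, rfl⟩
  rw [← hR]
  refine cnt_arith n a (d / 16) J K R b S1 S2 _ (by omega) han ?_ hb1 ?_ ?_
  · rw [hb]
    refine (cnt_or (A := fun G => ¬ Good d G) (B := fun G => Good d G ∧ ¬ Recon G) ?_).trans
      (Nat.add_le_add_left ?_ _)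
    · intro G _ h
      by_cases hG : Good d G
      · exact Or.inr ⟨hG, h⟩
      · exact Or.inl hG
    · refine (cnt_or (A := fun G => ∃ u v w : Fin n, (u ≠ v ∧ u ≠ w ∧ v ≠ w) ∧ Good d G ∧
        (TS G u v w).card < a) (B := fun G => ∃ α β : Fin a → Fin n, DisjPair α β ∧
          Good d G ∧ dis α β G = 0) ?_).trans (Nat.add_le_add ?_ ?_)
      · rintro G _ ⟨hG, h⟩
        by_contra hcon
        rw [not_or] at hcon
        apply h
        apply hREC
        apply hUNI n a G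
        · intro u v w h1 h2 h3
          by_contra h4
          exact hcon.1 ⟨u, v, w, ⟨h1, h2, h3⟩, hG, by omega⟩
        · intro α β hab h0
          exact hcon.2 ⟨α, β, hab, hG, h0⟩
      · rw [hS1]
        refine cnt_le_sum ((univ : Finset (Fin n × Fin n × Fin n)) ×ˢ range a)
          (fun i G => (i.1.1 ≠ i.1.2.1 ∧ i.1.1 ≠ i.1.2.2 ∧ i.1.2.1 ≠ i.1.2.2) ∧
            Good d G ∧ (TS G i.1.1 i.1.2.1 i.1.2.2).card = i.2) ?_
        rintro G _ ⟨u, v, w, hu, hG, hc⟩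
        exact ⟨((u, v, w), (TS G u v w).card), by simp [hc], hu, hG, rfl⟩
      · rw [hS2]
        refine cnt_le_sum (univ : Finset ((Fin a → Fin n) × (Fin a → Fin n)))
          (fun i G => DisjPair i.1 i.2 ∧ Good d G ∧ dis i.1 i.2 G = 0) ?_
        rintro G _ ⟨α, β, hab, hG, hc⟩
        exact ⟨(α, β), mem_univ _, hab, hG, hc⟩
  · rw [hS1, mul_sum]
    refine (sum_le_card_nsmul _ _ (R + 2 ^ K * b) ?_).trans (le_of_eq ?_)
    · rintro ⟨⟨u, v, w⟩, j⟩ hi
      rw [mem_product, mem_range] at hi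
      exact c1 u v w j hi.2
    · rw [card_product, card_range, card_univ, Fintype.card_prod, Fintype.card_prod,
        Fintype.card_fin, smul_eq_mul]
      ring
  · rw [hS2, mul_sum]
    refine (sum_le_card_nsmul _ _ (R + 2 ^ J * b) ?_).trans (le_of_eq ?_)
    · rintro ⟨α, β⟩ _
      exact c2 α β
    · rw [card_univ, Fintype.card_prod, Fintype.card_fun, Fintype.card_fin, Fintype.card_fin,
        smul_eq_mul]
      ring

end Pool.Agent.K1H35.SH

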